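import Pool.Agent.Helper30.ML.Goals

/-!
# Project ML (MP_bf413e_co), packet BR: bridge to triangulated surfaces
-/

set_option autoImplicit false

namespace Pool.Agent.Helper24.ML

open scoped Classical
open Finset
open Pool.Agent.Helper94.KC (Proper InChain KStep KEq AllEq dR QG Even2 sk Surf ed bd)
open Pool.Agent.Helper30.ML

variable {V : Type} [Fintype V]

theorem mem_ed {T : Finset (Finset V)} {e : Finset V} :
    e ∈ ed T ↔ ∃ u v, (sk T).Adj u v ∧ e = {u, v} := by
  unfold ed
  simp only [mem_filter, mem_univ, true_and]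
  constructor
  · rintro ⟨hc, t, ht, hs⟩
    obtain ⟨u, v, huv, rfl⟩ := Finset.card_eq_two.1 hc
    exact ⟨u, v, ⟨huv, t, ht, hs (by simp), hs (by simp)⟩, rfl⟩
  · rintro ⟨u, v, ⟨huv, t, ht, hu, hv⟩, rfl⟩
    refine ⟨Finset.card_pair huv, t, ht, ?_⟩
    intro x hx
    simp only [mem_insert, mem_singleton] at hx
    rcases hx with rfl | rfl
    · exact hu
    · exact hv

theorem even_tri {T : Finset (Finset V)} (hT : Surf T) {t : Finset V} (ht : t ∈ T) :
    Even2 ((ed T).filter (fun e => e ⊆ t)) := by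
  intro v
  by_cases hv : v ∈ t
  · have h : ((ed T).filter (fun e => e ⊆ t)).filter (fun e => v ∈ e) =
        (t.erase v).image (fun a => ({v, a} : Finset V)) := by
      ext e
      simp only [mem_filter, mem_image, mem_erase]
      constructor
      · rintro ⟨⟨he, hs⟩, hve⟩
        obtain ⟨a, b, hab, rfl⟩ := mem_ed.1 he
        simp only [mem_insert, mem_singleton] at hve
        rcases hve with rfl | rfl
        · exact ⟨b, ⟨hab.ne', hs (by simp)⟩, rfl⟩
        · exact ⟨a, ⟨hab.ne, hs (by simp)⟩, Finset.pair_comm _ _⟩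
      · rintro ⟨a, ⟨hav, hat⟩, rfl⟩
        refine ⟨⟨mem_ed.2 ⟨v, a, ⟨Ne.symm hav, t, ht, hv, hat⟩, rfl⟩, ?_⟩, by simp⟩
        intro x hx
        simp only [mem_insert, mem_singleton] at hx
        rcases hx with rfl | rfl
        · exact hv
        · exact hat
    rw [h, Finset.card_image_of_injOn, Finset.card_erase_of_mem hv, hT.card t ht]
    · exact ⟨1, rfl⟩
    · intro a ha b hb hab
      have ha' : a ≠ v := (Finset.mem_erase.1 (Finset.mem_coe.1 ha)).1
      have h1 : a ∈ ({v, b} : Finset V) := by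
        have h2 : a ∈ ({v, a} : Finset V) := by simp
        have h3 : ({v, a} : Finset V) = {v, b} := hab
        rwa [h3] at h2
      simp only [mem_insert, mem_singleton] at h1
      exact h1.resolve_left ha'
  · have h : ((ed T).filter (fun e => e ⊆ t)).filter (fun e => v ∈ e) = ∅ := by
      refine Finset.filter_eq_empty_iff.2 fun e he hve => hv ?_
      exact (mem_filter.1 he).2 hve
    rw [h]
    simp

theorem mem_eG {G : SimpleGraph V} {e : Finset V} :
    e ∈ eG G ↔ ∃ u v, G.Adj u v ∧ e = {u, v} := by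
  unfold eG
  simp

/-- **BR** -/
theorem pBR : StmtBR := by
  intro V _ T hT R hR
  set TR : Finset (Finset V) := T.filter (fun t => t ⊆ R) with hTR
  let q : TR ≃ Fin TR.card := TR.equivFin
  let τ : Fin TR.card → Finset V := fun i => (q.symm i).1
  have hτ : ∀ i, τ i ∈ T ∧ τ i ⊆ R := fun i => mem_filter.1 (q.symm i).2
  have hinj : Function.Injective τ := fun i j hij => q.symm.injective (Subtype.ext hij)
  have hsurj : ∀ t ∈ TR, ∃ i, τ i = t := fun t ht => ⟨q ⟨t, ht⟩, by simp [τ]⟩
  refine ⟨TR.card, fun i => (ed T).filter (fun e => e ⊆ τ i), ?_, ?_, ?_, ?_⟩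
  · intro i e he
    obtain ⟨he, hs⟩ := mem_filter.1 he
    obtain ⟨u, v, huv, rfl⟩ := mem_ed.1 he
    have hu : u ∈ R := (hτ i).2 (hs (by simp))
    have hv : v ∈ R := (hτ i).2 (hs (by simp))
    exact mem_eG.2 ⟨u, v, ⟨huv, hu, hv⟩, rfl⟩
  · intro i
    exact even_tri hT (hτ i).1
  · intro e
    by_cases he : e ∈ ed T
    · obtain ⟨u, v, huv, rfl⟩ := mem_ed.1 he
      rw [← hT.two u v huv]
      refine Finset.card_le_card_of_injOn τ ?_ hinj.injOn
      intro i hi
      have hi' := (mem_filter.1 (Finset.mem_coe.1 hi)).2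
      have hs := (mem_filter.1 hi').2
      exact Finset.mem_coe.2 (mem_filter.2 ⟨(hτ i).1, hs (by simp), hs (by simp)⟩)
    · have h : (univ.filter (fun i => e ∈ (ed T).filter (fun e => e ⊆ τ i))) = ∅ := by
        refine Finset.filter_eq_empty_iff.2 fun i _ hi => he (mem_filter.1 hi).1
      rw [h]
      simp
  · intro z hz hz2
    have hz' : z ⊆ (ed T).filter (fun e => e ⊆ R) := by
      intro e he
      obtain ⟨u, v, ⟨huv, hu, hv⟩, rfl⟩ := mem_eG.1 (hz he)
      refine mem_filter.2 ⟨mem_ed.2 ⟨u, v, huv, rfl⟩, ?_⟩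
      intro x hx
      simp only [mem_insert, mem_singleton] at hx
      rcases hx with rfl | rfl
      · exact hu
      · exact hv
    obtain ⟨D, hD, hDz⟩ := hR z hz' hz2
    refine ⟨univ.filter (fun i => τ i ∈ D), fun e => ?_⟩
    rw [← hDz]
    by_cases he : e ∈ ed T
    · have h1 : e ∈ bd T D ↔ Odd (D.filter (fun t => e ⊆ t)).card := by
        unfold bd
        simp [he]
      have h2 : (D.filter (fun t => e ⊆ t)).card =
          ((univ.filter (fun i => τ i ∈ D)).filter
            (fun i => e ∈ (ed T).filter (fun e => e ⊆ τ i))).card := by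
        symm
        refine Finset.card_bij (fun i _ => τ i) ?_ ?_ ?_
        · intro i hi
          obtain ⟨h3, h4⟩ := mem_filter.1 hi
          exact mem_filter.2 ⟨(mem_filter.1 h3).2, (mem_filter.1 h4).2⟩
        · intro i _ j _ hij
          exact hinj hij
        · intro t ht
          obtain ⟨h3, h4⟩ := mem_filter.1 ht
          obtain ⟨i, rfl⟩ := hsurj t (hD h3)
          exact ⟨i, mem_filter.2 ⟨mem_filter.2 ⟨mem_univ _, h3⟩, mem_filter.2 ⟨he, h4⟩⟩, rfl⟩
      rw [h1, h2]
    · have h1 : e ∉ bd T D := fun h => he (mem_filter.1 h).1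
      have h2 : ((univ.filter (fun i => τ i ∈ D)).filter
            (fun i => e ∈ (ed T).filter (fun e => e ⊆ τ i))) = ∅ := by
        refine Finset.filter_eq_empty_iff.2 fun i _ hi => he (mem_filter.1 hi).1
      rw [h2]
      simp [h1]

end Pool.Agent.Helper24.ML
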